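import Mathlib
import Pool.Agent.H107.DWBound
import Pool.Agent.H107.DWSharpD

/-!
# Extremal families of simplices with `d`-wise common interior points

We prove, for every `d ≥ 2`, the sharp upper bound
`C(⌊(n+d)/2⌋, d+1) + C(⌈(n+d)/2⌉, d+1)` for the size of a `d`-wise interior-intersecting family of
`d`-simplices spanned by `n` points in general position in `ℝ^d`.  The bound is the maximum number
of spanned simplices that contain a common point in their interiors, and it is attained by points
on the unit sphere.  For `d = 2` it is the number `F_2(n)` of the problem file.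

Idea of the proof.  Sort `P` by a generic linear functional `f`.  For a simplex `S` of the family
with lowest vertex `v`, split the other points of `P` into `A(S)` (points above `v` that lie on the
same side of the facet opposite `v` as `v` does) and `N(S)` (the rest).  All simplices of the
family with the same lowest vertex `v` have a common ray from `v` (Helly's theorem in dimension
`d-1`, which only needs `d`-wise intersections).  Ordering the family by the height of `v`, and then
by the distance at which the ray leaves the simplex, makes both systems `(A(S), S)` and `(N(S), S)`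
skew set-pair systems, and the skew set-pair inequality (proved here with polynomials) bounds the
number of `S` with `|A(S)| ≤ a`, and of those with `|N(S)| ≤ b`.
-/

namespace Pool.Agent.Results.MP_df4edf_co.DWiseSimplices

open Finset

/-- No `d+1` points of `P` lie on a common affine hyperplane of `ℝ^d`: any `d+1` points of `P` are
affinely independent. -/
def GeneralPosition {d : ℕ} (P : Finset (EuclideanSpace ℝ (Fin d))) : Prop :=
  ∀ S ⊆ P, S.card = d + 1 → AffineIndependent ℝ (fun x : S => (x : EuclideanSpace ℝ (Fin d)))

/-- `F` is a family of `d`-simplices spanned by `P`; a simplex is given by its `d+1` vertices. -/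
def IsSimplexFamily {d : ℕ} (P : Finset (EuclideanSpace ℝ (Fin d)))
    (F : Finset (Finset (EuclideanSpace ℝ (Fin d)))) : Prop :=
  ∀ S ∈ F, S ⊆ P ∧ S.card = d + 1

/-- Any `d` members of `F` (all members, if `F` has fewer than `d`) have a point lying in the
interiors of all of them. -/
def DWiseInteriorIntersecting {d : ℕ} (F : Finset (Finset (EuclideanSpace ℝ (Fin d)))) : Prop :=
  ∀ G ⊆ F, G.card = min d F.card →
    (⋂ S ∈ G, interior (convexHull ℝ (S : Set (EuclideanSpace ℝ (Fin d))))).Nonempty

theorem result (d : ℕ) (hd : 2 ≤ d) (n : ℕ) :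
    (∀ P : Finset (EuclideanSpace ℝ (Fin d)), P.card = n → GeneralPosition P →
      ∀ F : Finset (Finset (EuclideanSpace ℝ (Fin d))), IsSimplexFamily P F →
        DWiseInteriorIntersecting F →
        F.card ≤ ((n + d) / 2).choose (d + 1) + ((n + d + 1) / 2).choose (d + 1)) ∧
    (∃ P : Finset (EuclideanSpace ℝ (Fin d)), P.card = n ∧ GeneralPosition P ∧
      (∀ p ∈ P, ‖p‖ = 1) ∧
      ∃ F : Finset (Finset (EuclideanSpace ℝ (Fin d))), IsSimplexFamily P F ∧
        DWiseInteriorIntersecting F ∧
        (∀ S ∈ F, (0 : EuclideanSpace ℝ (Fin d)) ∈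
          interior (convexHull ℝ (S : Set (EuclideanSpace ℝ (Fin d))))) ∧
        F.card = ((n + d) / 2).choose (d + 1) + ((n + d + 1) / 2).choose (d + 1)) := by
  classical
  have hupper : ∀ P : Finset (EuclideanSpace ℝ (Fin d)), P.card = n → GeneralPosition P →
      ∀ F : Finset (Finset (EuclideanSpace ℝ (Fin d))), IsSimplexFamily P F →
        DWiseInteriorIntersecting F →
        F.card ≤ ((n + d) / 2).choose (d + 1) + ((n + d + 1) / 2).choose (d + 1) := by
    intro P hPn hP F hF hint
    subst hPn
    refine Pool.Agent.H107.DW.main_bound hd P hP F hF ?_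
    intro G hG hGc
    have hGF : G.card ≤ min d F.card := le_min hGc (Finset.card_le_card hG)
    obtain ⟨G', hGG', hG'F, hG'c⟩ :=
      Finset.exists_subsuperset_card_eq hG hGF (min_le_right _ _)
    obtain ⟨x, hx⟩ := hint G' hG'F hG'c
    refine ⟨x, ?_⟩
    simp only [Set.mem_iInter] at hx ⊢
    exact fun S hS => hx S (hGG' hS)
  refine ⟨hupper, ?_⟩
  obtain ⟨P, hPc, hP, hnorm, F, hF, hcard⟩ := Pool.Agent.H107.DW.sharp hd n
  have hdw : DWiseInteriorIntersecting F := by
    intro G hG _
    refine ⟨0, ?_⟩
    simp only [Set.mem_iInter]
    exact fun S hS => (hF S (hG hS)).2.2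
  have hfam : IsSimplexFamily P F := fun S hS => ⟨(hF S hS).1, (hF S hS).2.1⟩
  refine ⟨P, hPc, hP, hnorm, F, hfam, hdw, fun S hS => (hF S hS).2.2, ?_⟩
  have h1 := hupper P hPc hP F hfam hdw
  omega

end Pool.Agent.Results.MP_df4edf_co.DWiseSimplices
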